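import Pool.Agent.Run7.h447.AutMain

/-!
# The isomorphism problem for self-similar groups is undecidable

There is no algorithm which decides, for two finite invertible automata given by their tables,
whether the self-similar groups generated by them are isomorphic; and this remains so if one of
the two automata is fixed and both have an alphabet of `16` letters.

Proof. For a word `w` in the generators of a finitely presented group with undecidable word
problem, a presentation `P_w` (computable from `w`) presents a trivial group if `w = 1` and a
nontrivial one otherwise. Rewrite it with positive relators, and let `F` be a free group of integral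
matrices with nonnegative entries on the generators, `N_w` the normal closure of the relators in
`F`, and `L_w = {(u, v) ∈ F × F : u ∈ v N_w}`, which is generated by the diagonal and the `(r, 1)`,
`r` a relator. The affine group `ℤ⁴ ⋊ L_w` acts on the 2-adic digits of the vectors, and is
generated by the states of a finite automaton over the alphabet `{0,1}⁴`: the pairs (linear part,
translation part in a box). If `w = 1` then `L_w = F × F`. If `ℤ⁴ ⋊ L_w` is isomorphic to
`ℤ⁴ ⋊ (F × F)`, the direct product of two copies of `ℤ² ⋊ F`, then it is the product of two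
commuting nontrivial subgroups; in each of the two coordinates one of them has trivial projection
(commuting normal subgroups of `ℤ² ⋊ F` which generate it: one is trivial), so `(g, 1) ∈ L_w` for a
generator `g`, and so `w = 1`.
-/

set_option autoImplicit false

namespace Pool.Agent.Results.MP_56d946_al.IsomorphismUndecidable

open Pool.Agent.Run7.h447

/-- **The isomorphism problem for self-similar groups is undecidable.** (1) There is a finite
invertible automaton `B` over an alphabet of `16` letters such that no algorithm decides, given the
table of a finite invertible automaton `A` over an alphabet of `16` letters, whether `G(A)` and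
`G(B)` are isomorphic. (2) In particular no algorithm decides, given the tables of two finite
invertible automata `A` and `B`, whether `G(A)` and `G(B)` are isomorphic. -/
theorem result :
    (∃ B : Automaton, B.n = 16 ∧
      ¬ ∃ f : ℕ × List (List (ℕ × ℕ)) →. Bool, Partrec f ∧ ∀ A : Automaton, A.n = 16 →
        (Nonempty (A.Grp ≃* B.Grp) → true ∈ f A.code) ∧
        (¬ Nonempty (A.Grp ≃* B.Grp) → false ∈ f A.code)) ∧
    ¬ ∃ f : (ℕ × List (List (ℕ × ℕ))) × (ℕ × List (List (ℕ × ℕ))) →. Bool,
      Partrec f ∧ ∀ A B : Automaton,
        (Nonempty (A.Grp ≃* B.Grp) → true ∈ f (A.code, B.code)) ∧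
        (¬ Nonempty (A.Grp ≃* B.Grp) → false ∈ f (A.code, B.code)) := by
  have h1 : ∃ B : Automaton, B.n = 16 ∧
      ¬ ∃ f : ℕ × List (List (ℕ × ℕ)) →. Bool, Partrec f ∧ ∀ A : Automaton, A.n = 16 →
        (Nonempty (A.Grp ≃* B.Grp) → true ∈ f A.code) ∧
        (¬ Nonempty (A.Grp ≃* B.Grp) → false ∈ f A.code) := by
    obtain ⟨m, R, W, hW, hund⟩ := Pool.Agent.Helper270.WP.word_problem
    set Rl : List (List (Fin m × Bool)) := R.toList.map FreeGroup.toWord with hRl
    have hR : {x | ∃ r ∈ Rl, x = FreeGroup.mk r} = (R : Set (FreeGroup (Fin m))) := by
      ext x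
      constructor
      · rintro ⟨r, hr, rfl⟩
        rw [hRl, List.mem_map] at hr
        obtain ⟨y, hy, rfl⟩ := hr
        rw [FreeGroup.mk_toWord]
        exact Finset.mem_toList.1 hy
      · intro hx
        exact ⟨x.toWord, List.mem_map.2 ⟨x, Finset.mem_toList.2 hx, rfl⟩,
          FreeGroup.mk_toWord.symm⟩
    refine ⟨aut Rl [], rfl, ?_⟩
    rintro ⟨f, hf, hcon⟩
    apply hund
    classical
    refine ⟨inferInstance, ?_⟩
    have hcode : Computable fun n => (aut Rl (W n)).code := (primrec_code Rl).to_comp.comp hW
    refine (hf.comp hcode).of_eq ?_
    intro n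
    rw [PFun.coe_val, Part.eq_some_iff]
    have hiff := iso_iff Rl (W n)
    rw [hR] at hiff
    by_cases h : FreeGroup.mk (W n) ∈ Subgroup.normalClosure (R : Set (FreeGroup (Fin m)))
    · rw [decide_eq_true h]
      exact (hcon _ (n_aut Rl (W n))).1 (hiff.mpr h)
    · rw [decide_eq_false h]
      exact (hcon _ (n_aut Rl (W n))).2 (fun h2 => h (hiff.mp h2))
  refine ⟨h1, ?_⟩
  rintro ⟨f, hf, hcon⟩
  obtain ⟨B, -, hB⟩ := h1
  apply hB
  refine ⟨fun c => f (c, B.code), ?_, fun A _ => hcon A B⟩
  exact hf.comp (Computable.pair Computable.id (Computable.const _))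

end Pool.Agent.Results.MP_56d946_al.IsomorphismUndecidable
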